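import Pool.Agent.H1.SmpB

open Pool.Agent.H1.Smp MeasureTheory

theorem Pool.Agent.Results.MP_1d8377_an.Disproof.result (n : ℕ) :
    ∃ u V : (Fin (n + 1) → ℝ) → ℝ, Measurable V ∧ Continuous u ∧ Integrable u ∧
      (∀ x, 0 ≤ u x) ∧ Integrable (fun x => V x * u x) ∧
      (∀ φ : (Fin (n + 1) → ℝ) → ℝ, ContDiff ℝ (⊤ : ℕ∞) φ → HasCompactSupport φ →
        (∀ x, 0 ≤ φ x) → ∫ x, u x * lap φ x ≤ ∫ x, V x * u x * φ x) ∧
      HasCompactSupport u ∧ Integrable (fun x => √(max (V x) 0)) ∧ ∃ x, 0 < u x :=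
  main n
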